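import Mathlib
import Pool.Agent.Helper18.EW.Goals
import Pool.Agent.Helper63.Hw.H1
import Pool.Agent.Helper32.Hw.H2

/-! Packet E3 (MP_d3128a_ag, project EW): the identity, for arbitrary loads. -/

set_option autoImplicit false

namespace Pool.Agent.Helper94.EW

open Finset
open Pool.Agent.Helper43.Hw
open Pool.Agent.Helper43.Gm (st mv nn Run Pri)
open Pool.Agent.Helper43.Hw.PkH2 (va_lt va_eq sum_na kmono xinc)
open Pool.Agent.Helper18.EW (GoalE3 kk)

variable {μ R N : ℕ} {κ x : ℕ → ℕ}

theorem two_T' (k : ℕ) : (2 : ℤ) * T k = (k : ℤ) * (k + 1) := by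
  exact_mod_cast two_T k

/-- The identity and the bounds for the moving point, for arbitrary loads. -/
theorem goalE3 : GoalE3 := by
  intro μ R N κ x y hμ hR hp hyR hκN hy
  obtain ⟨g1, g2, g3, g4, g5, g6, g7⟩ := PkH1.goalH1 μ R N κ x hμ hR hp
  obtain ⟨q1, q2, q3, q4⟩ := (PkH2.goalH2 PkH1.goalH1) μ R N κ x hμ hR hp
  obtain ⟨w, hw⟩ : ∃ w, w = R - 1 - y := ⟨_, rfl⟩
  have hRw : R = y + 1 + w := by omega
  obtain ⟨m, hm⟩ : ∃ m, m = na μ R y := ⟨_, rfl⟩
  have hμm : μ = m + w := by unfold na at hm; omega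
  rw [← hw]
  -- the remainders
  obtain ⟨rem, hrem⟩ : ∃ rem : ℕ → ℤ, rem = fun c => ∑ z ∈ Ico y R, (va μ R κ x c z : ℤ) :=
    ⟨_, rfl⟩
  have hremc : ∀ c, rem c = ∑ z ∈ Ico y R, (va μ R κ x c z : ℤ) := fun c => by rw [hrem]
  have hT : ∀ c < N, (∑ z ∈ range y, (va μ R κ x c z : ℤ)) + rem c = T μ := by
    intro c hc
    have e1 := q3 c hc
    rw [Finset.range_eq_Ico, ← Finset.sum_Ico_consecutive _ (Nat.zero_le y) hyR.le] at e1
    rw [hremc, Finset.range_eq_Ico]
    exact_mod_cast e1
  have hsumna : (∑ z ∈ range y, (na μ R z : ℤ)) = T μ - ((w + 1) * m + T w) := by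
    have e1 : ∑ z ∈ range y, na μ R z = T (y + μ - R) := sum_na (by omega) y
    have e1' : (∑ z ∈ range y, (na μ R z : ℤ)) = T (y + μ - R) := by exact_mod_cast e1
    rw [e1']
    have t1 := two_T' (y + μ - R)
    have t2 := two_T' μ
    have t3 := two_T' w
    have k1 : ((μ : ℕ) : ℤ) = m + w := by exact_mod_cast hμm
    rcases Nat.eq_zero_or_pos m with h | h
    · have k2 : y + μ - R = 0 := by omega
      rw [k2] at t1 ⊢
      have k3 : (m : ℤ) = 0 := by exact_mod_cast h
      rw [k1, k3] at t2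
      rw [T_zero, k3]
      push_cast
      nlinarith
    · have k2 : ((y + μ - R : ℕ) : ℤ) = m - 1 := by omega
      rw [k2] at t1
      rw [k1] at t2
      nlinarith
  -- points which have not started
  have hC : ∀ c, κ y < c → c < N → rem c = (w + 1) * m + T w := by
    intro c hc hcN
    have e1 := hT c hcN
    have e2 : (∑ z ∈ range y, (va μ R κ x c z : ℤ)) = ∑ z ∈ range y, (na μ R z : ℤ) := by
      refine Finset.sum_congr rfl fun z hz => ?_
      rw [mem_range] at hz
      rw [va_lt (lt_of_le_of_lt (kmono hp hz.le hyR) hc)]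
    rw [e2, hsumna] at e1
    linarith
  -- old points
  have hA : ∀ c < κ y, rem c + (if 0 < va μ R κ x c y then (T w : ℤ) else 0) +
      ∑ t ∈ (range y).filter (fun t => κ t = c ∧ 0 < x t ∧ U μ R x t ≤ w), (U μ R x t : ℤ) =
      (w + 1) * va μ R κ x c y +
        (if 0 < va μ R κ x c y then (T (R - 1 - μ - ac R κ x c) : ℤ) else 0) := by
    intro c hc
    rcases Nat.eq_zero_or_pos (va μ R κ x c y) with h | h
    · rw [h, if_neg (by omega), if_neg (by omega)]
      have e1 : rem c = 0 := by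
        have := q2 y hyR c hc h
        rw [hremc]
        exact_mod_cast this
      have e2 : (range y).filter (fun t => κ t = c ∧ 0 < x t ∧ U μ R x t ≤ w) = ∅ := by
        rw [Finset.filter_eq_empty_iff]
        rintro t ht ⟨a1, a2, a3⟩
        rw [mem_range] at ht
        obtain ⟨b1, b2⟩ := (g2 c t (by omega)).1 ⟨a1, a2⟩
        have b3 := (g5 c t b1 b2).2
        have b4 : ¬ y < ac R κ x c + μ := fun b => by
          have := (g6 y hyR c hc).2.2.2.2 b
          omega
        omega
      rw [e1, e2, sum_empty]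
      simp
    · rw [if_pos h, if_pos h]
      have e1 := q1 y hyR c hc h
      rw [← hw] at e1
      have e2 : R - y = w + 1 := by omega
      rw [e2] at e1
      rw [hremc]
      exact_mod_cast e1
  -- sums over the old points
  have hoo : ∑ c ∈ range (κ y), (if 0 < va μ R κ x c y then (T w : ℤ) else 0) =
      oo μ R κ x y * T w := by
    rw [← Finset.sum_filter, Finset.sum_const, nsmul_eq_mul]
    rfl
  have hDd : ∑ c ∈ range (κ y),
      (if 0 < va μ R κ x c y then (T (R - 1 - μ - ac R κ x c) : ℤ) else 0) = Dd μ R κ x y := by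
    rw [← Finset.sum_filter]
    unfold Dd
    push_cast
    rfl
  have hSd : ∑ c ∈ range (κ y),
      ∑ t ∈ (range y).filter (fun t => κ t = c ∧ 0 < x t ∧ U μ R x t ≤ w), (U μ R x t : ℤ) =
      Sd μ R κ x y := by
    unfold Sd
    rw [← hw]
    push_cast
    rw [← Finset.sum_fiberwise_of_maps_to (s := (range y).filter
      (fun t => κ t < κ y ∧ 0 < x t ∧ U μ R x t ≤ w)) (t := range (κ y)) (g := κ)
      (fun t ht => mem_range.2 (mem_filter.1 ht).2.1)]
    refine Finset.sum_congr rfl fun c hc => ?_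
    rw [mem_range] at hc
    refine Finset.sum_congr ?_ fun _ _ => rfl
    ext t
    simp only [mem_filter, mem_range]
    constructor
    · rintro ⟨a1, a2, a3, a4⟩
      exact ⟨⟨a1, by omega, a3, a4⟩, a2⟩
    · rintro ⟨⟨a1, a2, a3, a4⟩, a5⟩
      exact ⟨a1, a5, a3, a4⟩
  have hold : (∑ c ∈ range (κ y), rem c) + oo μ R κ x y * T w + Sd μ R κ x y =
      (w + 1) * (∑ c ∈ range (κ y), (va μ R κ x c y : ℤ)) + Dd μ R κ x y := by
    rw [← hoo, ← hSd, ← hDd, Finset.mul_sum, ← Finset.sum_add_distrib, ← Finset.sum_add_distrib,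
      ← Finset.sum_add_distrib]
    exact Finset.sum_congr rfl fun c hc => hA c (mem_range.1 hc)
  -- splitting `range N`
  have hsplit : ∀ F : ℕ → ℤ, ∑ c ∈ range N, F c = ∑ c ∈ range (κ y), F c + F (κ y) +
      ∑ c ∈ Ico (κ y + 1) N, F c := by
    intro F
    rw [← Finset.sum_range_succ, Finset.range_eq_Ico, Finset.range_eq_Ico,
      Finset.sum_Ico_consecutive _ (by omega) (by omega)]
  obtain ⟨f, hf⟩ : ∃ f, f = N - 1 - κ y := ⟨_, rfl⟩
  have hfN : N - (κ y + 1) = f := by omega
  have hfN' : N - κ y = f + 1 := by omega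
  have hremsum : ∑ c ∈ range N, rem c = ∑ c ∈ range (κ y), rem c + rem (κ y) +
      f * ((w + 1) * m + T w) := by
    rw [hsplit]
    congr 1
    rw [Finset.sum_congr rfl fun c hc => hC c (by rw [mem_Ico] at hc; omega)
      (by rw [mem_Ico] at hc; omega), Finset.sum_const, Nat.card_Ico, hfN, nsmul_eq_mul]
  have hlzy : (lz μ R N κ x y : ℤ) =
      ∑ c ∈ range (κ y), (va μ R κ x c y : ℤ) + x y + f * m := by
    have e2 : (lz μ R N κ x y : ℤ) = ∑ c ∈ range N, (va μ R κ x c y : ℤ) := by
      unfold lz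
      push_cast
      rfl
    rw [e2, hsplit, va_eq rfl]
    congr 1
    rw [Finset.sum_congr rfl fun c hc => by
      rw [va_lt (μ := μ) (R := R) (x := x) (show κ y < c by rw [mem_Ico] at hc; omega), ← hm],
      Finset.sum_const, Nat.card_Ico, hfN, nsmul_eq_mul]
  have htot : ∑ c ∈ range N, rem c + ∑ z ∈ range y, (lz μ R N κ x z : ℤ) = N * T μ := by
    have e1 : ∑ c ∈ range N, ((∑ z ∈ range y, (va μ R κ x c z : ℤ)) + rem c) = N * T μ := by
      rw [Finset.sum_congr rfl fun c hc => hT c (mem_range.1 hc), Finset.sum_const, card_range,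
        nsmul_eq_mul]
    rw [Finset.sum_add_distrib, Finset.sum_comm] at e1
    have e2 : ∑ z ∈ range y, ∑ c ∈ range N, (va μ R κ x c z : ℤ) =
        ∑ z ∈ range y, (lz μ R N κ x z : ℤ) := by
      refine Finset.sum_congr rfl fun z _ => ?_
      unfold lz
      push_cast
      rfl
    rw [e2] at e1
    linarith
  -- the identity
  have hid : (N : ℤ) * T μ - ∑ z ∈ range y, (lz μ R N κ x z : ℤ) =
      (w + 1) * lz μ R N κ x y + Dd μ R κ x y - Sd μ R κ x y - oo μ R κ x y * T w +
        f * T w + (rem (κ y) - (w + 1) * x y) := by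
    have e1 : ∑ c ∈ range N, rem c = N * T μ - ∑ z ∈ range y, (lz μ R N κ x z : ℤ) := by
      linarith
    have e2 := congrArg (fun t : ℤ => ((w : ℤ) + 1) * t) hlzy
    rw [← e1, hremsum]
    linear_combination hold - e2
  -- the moving point
  have hκy : y < sc R κ (κ y) := ((g1 (κ y) y hyR).1).1 le_rfl
  have hnaty : m ≤ x y := by rw [hm]; exact hp.nat y hyR hκN
  have hvale : ∀ z < y, na μ R z ≤ va μ R κ x (κ y) z := by
    intro z hz
    rcases Nat.lt_or_ge (κ z) (κ y) with h | h
    · rw [va_lt h]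
    · have h' : κ z = κ y := le_antisymm (kmono hp hz.le hyR) h
      rw [va_eq h']
      exact hp.nat z (by omega) (by omega)
  have hTκ := hT (κ y) hκN
  have e0 : R - y = w + 1 := by omega
  refine ⟨?_, ?_⟩
  · rw [hfN', e0]
    have e1 : (∑ z ∈ range y, (na μ R z : ℤ)) ≤ ∑ z ∈ range y, (va μ R κ x (κ y) z : ℤ) := by
      refine Finset.sum_le_sum fun z hz => ?_
      exact_mod_cast hvale z (mem_range.1 hz)
    rw [hsumna] at e1
    have e2 : ((w : ℤ) + 1) * m ≤ (w + 1) * x y :=
      mul_le_mul_of_nonneg_left (by exact_mod_cast hnaty) (by positivity)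
    have e3 : (0 : ℤ) ≤ Sd μ R κ x y := by positivity
    have goal : ((oo μ R κ x y * T w + N * T μ : ℕ) : ℤ) ≤
        ((Dd μ R κ x y + (f + 1) * T w + ∑ z ∈ range y, lz μ R N κ x z +
          (w + 1) * lz μ R N κ x y : ℕ) : ℤ) := by
      push_cast
      linarith
    exact_mod_cast goal
  · intro _
    rw [hfN', e0]
    obtain ⟨u, hu⟩ : ∃ u, u = x y - na μ R y := ⟨_, rfl⟩
    rw [← hu]
    have hxu : x y = m + u := by omega
    have e1 : ∀ z ∈ range y, (va μ R κ x (κ y) z : ℤ) ≤ na μ R z +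
        (if κ z = κ y ∧ na μ R z < x z then (u : ℤ) else 0) := by
      intro z hz
      rw [mem_range] at hz
      rcases Nat.lt_or_ge (κ z) (κ y) with h | h
      · rw [if_neg (fun hh => by omega), add_zero, va_lt h]
      · have h' : κ z = κ y := le_antisymm (kmono hp hz.le hyR) h
        rw [va_eq h']
        by_cases hz2 : na μ R z < x z
        · rw [if_pos ⟨h', hz2⟩]
          obtain ⟨b1, b2⟩ := (g2 (κ y) z (by omega)).1 ⟨h', by omega⟩
          have a3 := xinc g2 hp b1 hz.le hκy hyR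
          have a4 : x z ≤ na μ R z + u := by
            unfold na at hm ⊢
            omega
          exact_mod_cast a4
        · rw [if_neg (fun hh => hz2 hh.2), add_zero]
          exact_mod_cast not_lt.1 hz2
    have e2 := Finset.sum_le_sum e1
    rw [Finset.sum_add_distrib, hsumna, ← Finset.sum_filter, Finset.sum_const] at e2
    have e3 : ((range y).filter (fun z => κ z = κ y ∧ na μ R z < x z)).card =
        kk μ R κ x y := rfl
    rw [e3, nsmul_eq_mul] at e2
    have e4 : (x y : ℤ) = m + u := by exact_mod_cast hxu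
    have e5 : ((w : ℤ) + 1) * x y = (w + 1) * m + (w + 1) * u := by rw [e4]; ring
    have goal : ((Dd μ R κ x y + (f + 1) * T w + ∑ z ∈ range y, lz μ R N κ x z +
          (w + 1) * lz μ R N κ x y : ℕ) : ℤ) ≤
        ((Sd μ R κ x y + oo μ R κ x y * T w + N * T μ + (w + 1 + kk μ R κ x y) * u : ℕ) : ℤ) := by
      push_cast
      linarith
    exact_mod_cast goal

end Pool.Agent.Helper94.EW
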