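import Mathlib
import Pool.Agent.Helper18.EW.Goals4
import Pool.Agent.Helper34.SG.F1

/-!
# Packet EW-F1Z (project of helper18): the super rows of the trapezoid
-/

set_option autoImplicit false

namespace Pool.Agent.Helper94.EW

open Finset Pool.Agent.Lead.Sh
open Pool.Agent.Helper18.SG (sig)
open Pool.Agent.Helper18.EW
open Pool.Agent.Helper34.SG (divmod sig_inj)

lemma mem_triZ (d h : ℕ) (x : ℕ × ℕ) : x ∈ triZ d h ↔ x.1 + x.2 ≤ d ∧ x.2 < h := by
  unfold triZ
  rw [mem_filter, mem_triD]
  constructor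
  · rintro ⟨⟨_, h1⟩, h2⟩; exact ⟨h1, h2⟩
  · rintro ⟨h1, h2⟩; exact ⟨⟨Nat.zero_le _, h1⟩, h2⟩

/-- the row k of the image -/
lemma rowcardZ (p d h k : ℕ) (hp : 1 ≤ p) (hd : h ≤ d + 1) (hk : k < (h - 1) / p + 1) :
    (((triZ d h).image (sig p)).filter (fun x => x.2 = k)).card = rz p d h ((h - 1) / p - k) := by
  have hk' : (h - 1) / p - ((h - 1) / p - k) = k := by omega
  unfold rz
  rw [hk']
  have h1 : (((triZ d h).image (sig p)).filter (fun x => x.2 = k)) =
      (((range p).filter (fun r => p * k + r < h)).sigma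
        (fun j => range (d + 1 - (p * k + j)))).image
        (fun q : (Σ _ : ℕ, ℕ) => (p * q.2 + q.1, k)) := by
    ext x
    simp only [mem_filter, mem_image, mem_sigma, mem_range, mem_triZ]
    constructor
    · rintro ⟨⟨y, ⟨hy, hyh⟩, rfl⟩, hx⟩
      have h2 : y.2 / p = k := hx
      have h3 := Nat.div_add_mod y.2 p
      rw [h2] at h3
      refine ⟨⟨y.2 % p, y.1⟩, ⟨⟨Nat.mod_lt _ hp, ?_⟩, ?_⟩, ?_⟩
      · show p * k + y.2 % p < h
        rw [h3]; exact hyh
      · show y.1 < d + 1 - (p * k + y.2 % p)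
        rw [h3]; omega
      · unfold sig
        rw [h2]
    · rintro ⟨⟨r, i⟩, ⟨⟨hr, hrh⟩, hi⟩, rfl⟩
      have hr' : r < p := hr
      have hrh' : p * k + r < h := hrh
      have hi' : i < d + 1 - (p * k + r) := hi
      obtain ⟨g1, g2⟩ := divmod p k r hr'
      refine ⟨⟨(i, p * k + r), ⟨?_, ?_⟩, ?_⟩, rfl⟩
      · show i + (p * k + r) ≤ d
        omega
      · exact hrh'
      · unfold sig
        show (p * i + (p * k + r) % p, (p * k + r) / p) = (p * i + r, k)
        rw [g1, g2]
  rw [h1, card_image_of_injOn, card_sigma]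
  · apply sum_congr rfl
    intro j _
    rw [card_range]
  · rintro ⟨r, i⟩ hq ⟨r', i'⟩ hq' h'
    simp only [coe_sigma, Set.mem_sigma_iff, mem_coe, mem_range, mem_filter] at hq hq'
    have h2 : p * i + r = p * i' + r' := congrArg Prod.fst h'
    have a1 := divmod p i r hq.1.1
    have a2 := divmod p i' r' hq'.1.1
    rw [h2] at a1
    have e1 : i = i' := a1.1.symm.trans a2.1
    have e2 : r = r' := a1.2.symm.trans a2.2
    subst e1 e2
    rfl

/-- the cells of the trapezoid, row by row -/
lemma card_row (d h j : ℕ) (hj : j < h) (hd : h ≤ d + 1) :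
    ((triZ d h).filter (fun x => x.2 = j)).card = d + 1 - j := by
  have h1 : (triZ d h).filter (fun x => x.2 = j) = (range (d + 1 - j)).image (fun i => (i, j)) := by
    ext x
    simp only [mem_filter, mem_image, mem_range, mem_triZ]
    constructor
    · rintro ⟨⟨h2, _⟩, h3⟩
      refine ⟨x.1, by omega, ?_⟩
      rw [← h3]
    · rintro ⟨i, hi, rfl⟩
      refine ⟨⟨?_, hj⟩, rfl⟩
      show i + j ≤ d
      omega
  rw [h1, card_image_of_injective _ (fun a b hab => congrArg Prod.fst hab), card_range]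

lemma card_triZ (d h : ℕ) (hd : h ≤ d + 1) : (triZ d h).card = ∑ j ∈ range h, (d + 1 - j) := by
  rw [card_eq_sum_card_fiberwise (f := fun x : ℕ × ℕ => x.2) (t := range h)
      (fun x hx => by
        rw [mem_coe] at hx ⊢
        exact mem_range.mpr ((mem_triZ d h x).mp hx).2)]
  apply sum_congr rfl
  intro j hj
  exact card_row d h j (mem_range.mp hj) hd

lemma sum_triZ (d : ℕ) : ∀ h : ℕ, h ≤ d + 1 →
    2 * ∑ j ∈ range h, (d + 1 - j) + (d + 1 - h) * (d + 2 - h) = (d + 1) * (d + 2) := by
  intro h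
  induction h with
  | zero => intro _; simp
  | succ n ih =>
    intro hn
    have h1 := ih (by omega)
    rw [sum_range_succ]
    obtain ⟨u, hu⟩ : ∃ u, d = n + u := ⟨d - n, by omega⟩
    have e1 : d + 1 - n = u + 1 := by omega
    have e2 : d + 2 - n = u + 2 := by omega
    have e3 : d + 1 - (n + 1) = u := by omega
    have e4 : d + 2 - (n + 1) = u + 1 := by omega
    rw [e1, e2] at h1
    rw [e1, e3, e4]
    nlinarith

theorem goalF1Z : GoalF1Z := by
  intro p d h hp hh hd
  have hcard : ∀ k < (h - 1) / p + 1,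
      (((triZ d h).image (sig p)).filter (fun x => x.2 = k)).card =
      rz p d h ((h - 1) / p - k) := fun k hk => rowcardZ p d h k hp hd hk
  have hlt : ∀ x ∈ (triZ d h).image (sig p), x.2 < (h - 1) / p + 1 := by
    intro x hx
    rw [mem_image] at hx
    obtain ⟨y, hy, rfl⟩ := hx
    rw [mem_triZ] at hy
    show y.2 / p < (h - 1) / p + 1
    exact Nat.lt_succ_of_le (Nat.div_le_div_right (by omega))
  refine ⟨?_, hlt, hcard, ?_, ?_⟩
  · intro x hx hpx
    rw [mem_triZ] at hx ⊢
    constructor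
    · show x.1 + 1 + (x.2 - p) ≤ d
      omega
    · show x.2 - p < h
      omega
  · rw [← card_image_of_injective (triZ d h) (sig_inj p hp)]
    rw [card_eq_sum_card_fiberwise (f := fun x : ℕ × ℕ => x.2) (t := range ((h - 1) / p + 1))
      (fun x hx => by
        rw [mem_coe] at hx ⊢
        exact mem_range.mpr (hlt x hx))]
    rw [sum_congr rfl (fun k hk => hcard k (mem_range.mp hk))]
    rw [← sum_range_reflect]
    apply sum_congr rfl
    intro k hk
    rw [mem_range] at hk
    rfl
  · rw [card_triZ d h hd]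
    exact sum_triZ d h hd

end Pool.Agent.Helper94.EW
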